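import Mathlib
import Pool.Agent.Y272.TY.Stm2

set_option autoImplicit false

open Complex Filter Topology Metric Set MeasureTheory

namespace Pool.Agent.Y266.TY.RLim

open Pool.Agent.H712R2 Pool.Agent.Y272.TY

theorem diffP (d k : ℕ) : Differentiable ℂ (P d k) := by
  have h : P d k = fun c => (PP d k).eval c := by funext c; rw [eval_PP]
  rw [h]; exact (PP d k).differentiable

theorem deriv_succ (d k : ℕ) (c : ℂ) :
    deriv (P d (k + 1)) c = d * P d k c ^ (d - 1) * deriv (P d k) c + 1 := by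
  have h : P d (k + 1) = fun c => (P d k c) ^ d + c := by funext c; exact P_succ d k c
  rw [h]
  have h1 : HasDerivAt (P d k) (deriv (P d k) c) c := (diffP d k c).hasDerivAt
  have h2 := (h1.pow d).add (hasDerivAt_id c)
  exact h2.deriv

theorem MM_one (d : ℕ) (c : ℂ) : MM d c 1 = 1 := by simp [MM]

theorem MM_succ (d : ℕ) (c : ℂ) (k : ℕ) :
    MM d c (k + 2) = MM d c (k + 1) * (d * P d (k + 1) c ^ (d - 1)) := by
  unfold MM
  rw [Finset.prod_Ico_succ_top (by omega : 1 ≤ k + 1)]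

theorem mm_one (d : ℕ) (c : ℂ) : mm d c 1 = 1 := by simp [mm]

theorem mm_succ (d : ℕ) (c : ℂ) (k : ℕ) :
    mm d c (k + 2) = mm d c (k + 1) * (d * ‖P d (k + 1) c‖ ^ (d - 1)) := by
  unfold mm
  rw [Finset.prod_Ico_succ_top (by omega : 1 ≤ k + 1)]

theorem norm_MM (d : ℕ) (c : ℂ) (k : ℕ) : ‖MM d c k‖ = mm d c k := by
  unfold MM mm
  rw [norm_prod]
  refine Finset.prod_congr rfl fun i _ => ?_
  rw [norm_mul, norm_pow, Complex.norm_natCast]

theorem MM_ne {d : ℕ} (hd : 2 ≤ d) (c : ℂ) : ∀ n : ℕ, (∀ j, j < n → P d (j + 1) c ≠ 0) →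
    MM d c (n + 1) ≠ 0
  | 0, _ => by rw [MM_one]; exact one_ne_zero
  | n + 1, h => by
    rw [MM_succ]
    have h1 := MM_ne hd c n (fun j hj => h j (by omega))
    have h2 := h n (by omega)
    have h3 : (d : ℂ) ≠ 0 := by exact_mod_cast (by omega : d ≠ 0)
    exact mul_ne_zero h1 (mul_ne_zero h3 (pow_ne_zero _ h2))

theorem ratio {d : ℕ} (hd : 2 ≤ d) (c : ℂ) : ∀ n : ℕ, (∀ j, j < n → P d (j + 1) c ≠ 0) →
    deriv (P d (n + 1)) c / MM d c (n + 1) = ∑ k ∈ Finset.range (n + 1), 1 / MM d c (k + 1)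
  | 0, _ => by
    have h : P d 1 = fun c => c := by funext c; exact P_one hd c
    have h1 : deriv (P d (0 + 1)) c = 1 := by
      rw [zero_add, h]; exact deriv_id c
    rw [h1]; simp
  | n + 1, h => by
    have ih := ratio hd c n (fun j hj => h j (by omega))
    rw [Finset.sum_range_succ, ← ih, deriv_succ d (n + 1) c, MM_succ]
    have h1 := MM_ne hd c n (fun j hj => h j (by omega))
    have h2 := h n (by omega)
    have h3 : (d : ℂ) ≠ 0 := by exact_mod_cast (by omega : d ≠ 0)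
    have h4 : P d (n + 1) c ^ (d - 1) ≠ 0 := pow_ne_zero _ h2
    field_simp

theorem mm_pos {d : ℕ} (hd : 2 ≤ d) (c : ℂ) (n : ℕ) (h : ∀ j, j < n → P d (j + 1) c ≠ 0) :
    0 < mm d c (n + 1) := by
  rw [← norm_MM]; exact norm_pos_iff.2 (MM_ne hd c n h)

theorem mm_eq {d : ℕ} (hd : 2 ≤ d) (c : ℂ) : ∀ n : ℕ, (∀ j, j < n → P d (j + 1) c ≠ 0) →
    mm d c (n + 1) = Real.exp (n * Real.log d + ((d - 1 : ℕ) : ℝ) *
      ∑ k ∈ Finset.range n, Real.log ‖P d (k + 1) c‖)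
  | 0, _ => by rw [zero_add, mm_one]; simp
  | n + 1, h => by
    have ih := mm_eq hd c n (fun j hj => h j (by omega))
    rw [mm_succ, ih, Finset.sum_range_succ]
    have h2 : 0 < ‖P d (n + 1) c‖ := norm_pos_iff.2 (h n (by omega))
    have hd0 : (0 : ℝ) < d := by exact_mod_cast (by omega : 0 < d)
    have h3 : (d : ℝ) * ‖P d (n + 1) c‖ ^ (d - 1)
        = Real.exp (Real.log d + ((d - 1 : ℕ) : ℝ) * Real.log ‖P d (n + 1) c‖) := by
      rw [Real.exp_add, Real.exp_log hd0, mul_comm (((d - 1 : ℕ) : ℝ)), Real.exp_mul,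
        Real.exp_log h2, Real.rpow_natCast]
    rw [h3, ← Real.exp_add]
    congr 1
    push_cast
    ring

/-! ### asymptotics -/

theorem bb_le (n : ℕ) : bb n ≤ 256 * ((n : ℝ) + 2) ^ (5 / 8 : ℝ) := by
  have hx : (1 : ℝ) ≤ (n : ℝ) + 2 := by have : (0 : ℝ) ≤ n := Nat.cast_nonneg n; linarith
  have hx0 : (0 : ℝ) ≤ (n : ℝ) + 2 := by linarith
  have h1 : Real.log ((n : ℝ) + 2) ≤ ((n : ℝ) + 2) ^ (1 / 16 : ℝ) / (1 / 16 : ℝ) :=
    Real.log_le_rpow_div hx0 (by norm_num)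
  have h0 : 0 ≤ Real.log ((n : ℝ) + 2) := Real.log_nonneg hx
  have h2 : Real.log ((n : ℝ) + 2) ^ 2 ≤ 256 * ((n : ℝ) + 2) ^ (1 / 8 : ℝ) := by
    calc Real.log ((n : ℝ) + 2) ^ 2 ≤ (((n : ℝ) + 2) ^ (1 / 16 : ℝ) / (1 / 16 : ℝ)) ^ 2 :=
          pow_le_pow_left₀ h0 h1 2
      _ = 256 * (((n : ℝ) + 2) ^ (1 / 16 : ℝ)) ^ 2 := by ring
      _ = 256 * ((n : ℝ) + 2) ^ (1 / 8 : ℝ) := by
          rw [← Real.rpow_natCast, ← Real.rpow_mul hx0]; norm_num
  have h3 : √((n : ℝ) + 1) ≤ ((n : ℝ) + 2) ^ (1 / 2 : ℝ) := by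
    rw [← Real.sqrt_eq_rpow]; exact Real.sqrt_le_sqrt (by linarith)
  unfold bb
  calc √((n : ℝ) + 1) * Real.log ((n : ℝ) + 2) ^ 2
      ≤ ((n : ℝ) + 2) ^ (1 / 2 : ℝ) * (256 * ((n : ℝ) + 2) ^ (1 / 8 : ℝ)) :=
        mul_le_mul h3 h2 (sq_nonneg _) (Real.rpow_nonneg hx0 _)
    _ = 256 * (((n : ℝ) + 2) ^ (1 / 2 : ℝ) * ((n : ℝ) + 2) ^ (1 / 8 : ℝ)) := by ring
    _ = 256 * ((n : ℝ) + 2) ^ (5 / 8 : ℝ) := by
        rw [← Real.rpow_add (by linarith)]; norm_num

theorem bb_nonneg (n : ℕ) : 0 ≤ bb n := by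
  unfold bb; exact mul_nonneg (Real.sqrt_nonneg _) (sq_nonneg _)

theorem bb_mono : Monotone bb := by
  intro m n h
  have h' : (m : ℝ) ≤ n := by exact_mod_cast h
  have hm : (0 : ℝ) ≤ m := Nat.cast_nonneg m
  unfold bb
  have h1 : Real.log ((m : ℝ) + 2) ≤ Real.log ((n : ℝ) + 2) :=
    Real.log_le_log (by linarith) (by linarith)
  have h0 : 0 ≤ Real.log ((m : ℝ) + 2) := Real.log_nonneg (by linarith)
  exact mul_le_mul (Real.sqrt_le_sqrt (by linarith)) (pow_le_pow_left₀ h0 h1 2) (sq_nonneg _)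
    (Real.sqrt_nonneg _)

theorem aa_le (n : ℕ) : aa n ≤ 2 * bb n := by
  have hn : (0 : ℝ) ≤ n := Nat.cast_nonneg n
  have hl : (0.69 : ℝ) ≤ Real.log ((n : ℝ) + 2) := by
    have h1 : Real.log 2 ≤ Real.log ((n : ℝ) + 2) := Real.log_le_log (by norm_num) (by linarith)
    have := Real.log_two_gt_d9
    linarith
  unfold aa bb
  rw [Real.sqrt_mul (by linarith)]
  have h2 : √(Real.log ((n : ℝ) + 2)) ≤ 2 * Real.log ((n : ℝ) + 2) ^ 2 := by
    rw [Real.sqrt_le_left (by positivity)]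
    have h3 : (0.328 : ℝ) ≤ Real.log ((n : ℝ) + 2) ^ 3 := by
      calc (0.328 : ℝ) ≤ 0.69 ^ 3 := by norm_num
        _ ≤ _ := pow_le_pow_left₀ (by norm_num) hl 3
    nlinarith
  have := mul_le_mul_of_nonneg_left h2 (Real.sqrt_nonneg ((n : ℝ) + 1))
  linarith

/-- number of lost levels -/
noncomputable def q (l : ℕ) : ℕ := ⌈((l : ℝ) + 2) ^ (3 / 4 : ℝ)⌉₊

theorem x_tendsto : Tendsto (fun l : ℕ => (l : ℝ) + 2) atTop atTop :=
  tendsto_atTop_add_const_right _ _ tendsto_natCast_atTop_atTop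

theorem ev_rpow (s : ℝ) (hs : 0 < s) (K : ℝ) : ∀ᶠ l : ℕ in atTop, K ≤ ((l : ℝ) + 2) ^ s :=
  ((tendsto_rpow_atTop hs).comp x_tendsto).eventually_ge_atTop K

theorem log_le (l : ℕ) : Real.log ((l : ℝ) + 2) ≤ 16 * ((l : ℝ) + 2) ^ (1 / 16 : ℝ) := by
  have hx0 : (0 : ℝ) ≤ (l : ℝ) + 2 := by have : (0 : ℝ) ≤ l := Nat.cast_nonneg l; linarith
  have h := Real.log_le_rpow_div hx0 (by norm_num : (0 : ℝ) < 1 / 16)
  linarith

/-- F1 -/
theorem ev1 (K : ℝ) : ∀ᶠ l : ℕ in atTop,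
    K * bb l + K * Real.log ((l : ℝ) + 2) + K ≤ Real.log 2 * ((l : ℝ) + 2) ^ (3 / 4 : ℝ) := by
  filter_upwards [ev_rpow (1 / 8) (by norm_num) (273 * |K| / Real.log 2)] with l hl
  have hx : (1 : ℝ) ≤ (l : ℝ) + 2 := by have : (0 : ℝ) ≤ l := Nat.cast_nonneg l; linarith
  have hx0 : (0 : ℝ) < (l : ℝ) + 2 := by linarith
  set x := (l : ℝ) + 2 with hxd
  have hK : K ≤ |K| := le_abs_self K
  have hK0 : 0 ≤ |K| := abs_nonneg K
  have hlog : 0 ≤ Real.log x := Real.log_nonneg hx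
  have h1 : K * bb l ≤ |K| * (256 * x ^ (5 / 8 : ℝ)) :=
    (mul_le_mul_of_nonneg_right hK (bb_nonneg l)).trans
      (mul_le_mul_of_nonneg_left (bb_le l) hK0)
  have h2 : K * Real.log x ≤ |K| * (16 * x ^ (5 / 8 : ℝ)) := by
    refine (mul_le_mul_of_nonneg_right hK hlog).trans (mul_le_mul_of_nonneg_left ?_ hK0)
    refine (log_le l).trans (mul_le_mul_of_nonneg_left ?_ (by norm_num))
    exact Real.rpow_le_rpow_of_exponent_le hx (by norm_num)
  have h3 : K ≤ |K| * x ^ (5 / 8 : ℝ) := by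
    refine hK.trans (le_mul_of_one_le_right hK0 ?_)
    exact Real.one_le_rpow hx (by norm_num)
  have hlog2 : 0 < Real.log 2 := Real.log_pos (by norm_num)
  have h4 : 273 * |K| ≤ Real.log 2 * x ^ (1 / 8 : ℝ) := by
    rw [div_le_iff₀ hlog2] at hl; linarith
  have h5 : x ^ (3 / 4 : ℝ) = x ^ (1 / 8 : ℝ) * x ^ (5 / 8 : ℝ) := by
    rw [← Real.rpow_add hx0]; norm_num
  have h6 : 0 ≤ x ^ (5 / 8 : ℝ) := Real.rpow_nonneg hx0.le _
  rw [h5]
  nlinarith [mul_le_mul_of_nonneg_right h4 h6]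

/-- F2 -/
theorem ev2 (K : ℝ) (hK : 0 ≤ K) : ∀ᶠ l : ℕ in atTop,
    K * ((q l : ℝ) * Real.log ((l : ℝ) + 2)) + (q l : ℝ) / 4 ≤ ((l : ℝ) + 1) / 8 := by
  filter_upwards [ev_rpow (3 / 16) (by norm_num) (8 * (32 * K + 1 + 1))] with l hl
  have hx : (1 : ℝ) ≤ (l : ℝ) + 2 := by have : (0 : ℝ) ≤ l := Nat.cast_nonneg l; linarith
  have hx0 : (0 : ℝ) < (l : ℝ) + 2 := by linarith
  have hl1 : (l : ℝ) + 1 = ((l : ℝ) + 2) - 1 := by ring
  rw [hl1]
  set x := (l : ℝ) + 2 with hxd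
  have hone : 1 ≤ x ^ (3 / 4 : ℝ) := Real.one_le_rpow hx (by norm_num)
  have hq : (q l : ℝ) ≤ 2 * x ^ (3 / 4 : ℝ) := by
    have h := (Nat.ceil_lt_add_one (Real.rpow_nonneg hx0.le (3 / 4 : ℝ))).le
    unfold q
    linarith
  have hq0 : (0 : ℝ) ≤ q l := Nat.cast_nonneg _
  have hlog : 0 ≤ Real.log x := Real.log_nonneg hx
  have h1 : (q l : ℝ) * Real.log x ≤ 32 * x ^ (13 / 16 : ℝ) := by
    calc (q l : ℝ) * Real.log x ≤ (2 * x ^ (3 / 4 : ℝ)) * (16 * x ^ (1 / 16 : ℝ)) :=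
          mul_le_mul hq (log_le l) hlog (by positivity)
      _ = 32 * (x ^ (3 / 4 : ℝ) * x ^ (1 / 16 : ℝ)) := by ring
      _ = 32 * x ^ (13 / 16 : ℝ) := by rw [← Real.rpow_add hx0]; norm_num
  have h2 : (q l : ℝ) / 4 ≤ x ^ (13 / 16 : ℝ) := by
    have : x ^ (3 / 4 : ℝ) ≤ x ^ (13 / 16 : ℝ) :=
      Real.rpow_le_rpow_of_exponent_le hx (by norm_num)
    have h0 : 0 ≤ x ^ (3 / 4 : ℝ) := Real.rpow_nonneg hx0.le _
    linarith
  have h3 : 1 ≤ x ^ (13 / 16 : ℝ) := Real.one_le_rpow hx (by norm_num)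
  have h4 : x = x ^ (3 / 16 : ℝ) * x ^ (13 / 16 : ℝ) := by
    rw [← Real.rpow_add hx0]; norm_num
  have h5 : 0 ≤ x ^ (13 / 16 : ℝ) := Real.rpow_nonneg hx0.le _
  have h6 : 8 * (32 * K + 1 + 1) * x ^ (13 / 16 : ℝ) ≤ x := by
    calc 8 * (32 * K + 1 + 1) * x ^ (13 / 16 : ℝ) ≤ x ^ (3 / 16 : ℝ) * x ^ (13 / 16 : ℝ) :=
          mul_le_mul_of_nonneg_right hl h5
      _ = x := h4.symm
  have h7 := mul_le_mul_of_nonneg_left h1 hK
  nlinarith

theorem ev3 : ∀ᶠ l : ℕ in atTop, q l ≤ l := by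
  filter_upwards [ev2 0 le_rfl] with l hl
  have h1 : (q l : ℝ) ≤ ((l : ℝ) + 1) / 2 := by linarith
  have h2 : (q l : ℝ) ≤ (l : ℝ) ∨ (l : ℝ) < 1 := by
    by_cases h : (l : ℝ) < 1
    · exact Or.inr h
    · left; rw [not_lt] at h; linarith
  rcases h2 with h | h
  · exact_mod_cast h
  · have h3 : (q l : ℝ) < 1 := by linarith
    have h4 : q l < 1 := by exact_mod_cast h3
    omega

theorem exists_bound (f : ℕ → ℝ) (h : ∀ᶠ k in atTop, f k ≤ 0) : ∃ K : ℝ, 0 ≤ K ∧ ∀ k, f k ≤ K := by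
  obtain ⟨N, hN⟩ := eventually_atTop.1 h
  refine ⟨∑ k ∈ Finset.range N, |f k|, Finset.sum_nonneg fun _ _ => abs_nonneg _, fun k => ?_⟩
  by_cases hk : k < N
  · exact (le_abs_self _).trans
      (Finset.single_le_sum (f := fun k => |f k|) (fun _ _ => abs_nonneg _) (Finset.mem_range.2 hk))
  · exact (hN k (by omega)).trans (Finset.sum_nonneg fun _ _ => abs_nonneg _)

theorem exists_low (K : ℝ) : ∃ K0 : ℝ, 0 ≤ K0 ∧ ∀ k : ℕ,
    K * bb k + ((k : ℝ) + 1) / 4 ≤ k * Real.log 2 + K0 := by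
  have h : ∀ᶠ k : ℕ in atTop, K * bb k + ((k : ℝ) + 1) / 4 - k * Real.log 2 ≤ 0 := by
    filter_upwards [ev1 (|K| + 1), ev_rpow (1 / 4) (by norm_num) 4] with k hk hk2
    have hx : (1 : ℝ) ≤ (k : ℝ) + 2 := by have : (0 : ℝ) ≤ k := Nat.cast_nonneg k; linarith
    have hx0 : (0 : ℝ) < (k : ℝ) + 2 := by linarith
    have hlog2 := Real.log_two_gt_d9
    have hlog2' := Real.log_two_lt_d9
    have h1 : 4 * ((k : ℝ) + 2) ^ (3 / 4 : ℝ) ≤ (k : ℝ) + 2 := by
      calc 4 * ((k : ℝ) + 2) ^ (3 / 4 : ℝ)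
          ≤ ((k : ℝ) + 2) ^ (1 / 4 : ℝ) * ((k : ℝ) + 2) ^ (3 / 4 : ℝ) :=
            mul_le_mul_of_nonneg_right hk2 (Real.rpow_nonneg hx0.le _)
        _ = (k : ℝ) + 2 := by rw [← Real.rpow_add hx0]; norm_num
    have h2 : K * bb k ≤ (|K| + 1) * bb k := by
      refine mul_le_mul_of_nonneg_right ?_ (bb_nonneg k)
      have := le_abs_self K; linarith
    have h3 : 0 ≤ (|K| + 1) * Real.log ((k : ℝ) + 2) :=
      mul_nonneg (by positivity) (Real.log_nonneg hx)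
    have h4 : 0 ≤ |K| := abs_nonneg K
    have h5 : Real.log 2 * ((k : ℝ) + 2) ^ (3 / 4 : ℝ) ≤ Real.log 2 * (((k : ℝ) + 2) / 4) :=
      mul_le_mul_of_nonneg_left (by linarith) (by linarith)
    nlinarith
  obtain ⟨K0, h0, hK⟩ := exists_bound _ h
  exact ⟨K0, h0, fun k => by have := hK k; linarith⟩

theorem summ (s : ℝ) (hs : 0 < s) : Summable (fun k : ℕ => Real.exp (-(((k : ℝ) + 1) * s))) := by
  have h : (fun k : ℕ => Real.exp (-(((k : ℝ) + 1) * s)))
      = fun k : ℕ => Real.exp (-s) * Real.exp (-s) ^ k := by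
    funext k
    rw [← Real.exp_nat_mul, ← Real.exp_add]
    congr 1
    ring
  rw [h]
  exact (summable_geometric_of_lt_one (Real.exp_nonneg _)
    (by have := Real.exp_lt_exp.2 (show -s < 0 by linarith); rwa [Real.exp_zero] at this)).mul_left _

theorem prodlow {d : ℕ} (hd : 2 ≤ d) (c0 c : ℂ) (J : ℕ)
    (h : ∀ j ∈ Finset.Icc 1 J, ‖P d j c0‖ * (1 - 1 / (d * ((j : ℝ) + 1) ^ 2)) ≤ ‖P d j c‖) :
    ∀ k : ℕ, k ≤ J → ((k : ℝ) + 2) / (2 * ((k : ℝ) + 1)) * mm d c0 (k + 1) ≤ mm d c (k + 1)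
  | 0, _ => by rw [zero_add, mm_one, mm_one]; norm_num
  | k + 1, hk => by
    have ih := prodlow hd c0 c J h k (by omega)
    have hd0 : (0 : ℝ) < d := by exact_mod_cast (by omega : 0 < d)
    have hk0 : (0 : ℝ) ≤ k := Nat.cast_nonneg k
    have h1 := h (k + 1) (Finset.mem_Icc.2 ⟨by omega, hk⟩)
    rw [mm_succ, mm_succ]
    set x : ℝ := 1 / (d * (((k + 1 : ℕ) : ℝ) + 1) ^ 2) with hx
    have hx0 : 0 ≤ x := by positivity
    have hx1 : x ≤ 1 := by
      rw [hx, div_le_one (by positivity)]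
      have h2 : (1 : ℝ) ≤ d := by exact_mod_cast (by omega : 1 ≤ d)
      have h3 : (1 : ℝ) ≤ (((k + 1 : ℕ) : ℝ) + 1) ^ 2 := by
        push_cast; nlinarith
      nlinarith
    have h2 : 1 - ((d - 1 : ℕ) : ℝ) * x ≤ (1 - x) ^ (d - 1) := by
      have := one_add_mul_le_pow (a := -x) (by linarith) (d - 1)
      calc 1 - ((d - 1 : ℕ) : ℝ) * x = 1 + ((d - 1 : ℕ) : ℝ) * -x := by ring
        _ ≤ (1 + -x) ^ (d - 1) := this
        _ = (1 - x) ^ (d - 1) := by ring_nf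
    have h3 : 1 - 1 / ((k : ℝ) + 2) ^ 2 ≤ (1 - x) ^ (d - 1) := by
      refine le_trans ?_ h2
      have h4 : ((d - 1 : ℕ) : ℝ) ≤ d := by exact_mod_cast Nat.sub_le d 1
      have h5 : ((d - 1 : ℕ) : ℝ) * x ≤ 1 / ((k : ℝ) + 2) ^ 2 := by
        calc ((d - 1 : ℕ) : ℝ) * x ≤ d * x := mul_le_mul_of_nonneg_right h4 hx0
          _ = 1 / ((k : ℝ) + 2) ^ 2 := by
              rw [hx]; push_cast; field_simp; ring
      linarith
    have h4 : ‖P d (k + 1) c0‖ ^ (d - 1) * (1 - 1 / ((k : ℝ) + 2) ^ 2)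
        ≤ ‖P d (k + 1) c‖ ^ (d - 1) := by
      calc ‖P d (k + 1) c0‖ ^ (d - 1) * (1 - 1 / ((k : ℝ) + 2) ^ 2)
          ≤ ‖P d (k + 1) c0‖ ^ (d - 1) * (1 - x) ^ (d - 1) :=
            mul_le_mul_of_nonneg_left h3 (by positivity)
        _ = (‖P d (k + 1) c0‖ * (1 - x)) ^ (d - 1) := (mul_pow _ _ _).symm
        _ ≤ ‖P d (k + 1) c‖ ^ (d - 1) := by
            refine pow_le_pow_left₀ (mul_nonneg (norm_nonneg _) (by linarith)) ?_ _
            exact h1
    have hmm : 0 ≤ mm d c0 (k + 1) := by rw [← norm_MM]; exact norm_nonneg _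
    have hlow : 0 ≤ ‖P d (k + 1) c0‖ ^ (d - 1) * (1 - 1 / ((k : ℝ) + 2) ^ 2) := by
      refine mul_nonneg (by positivity) ?_
      have : 1 / ((k : ℝ) + 2) ^ 2 ≤ 1 := by
        rw [div_le_one (by positivity)]; nlinarith
      linarith
    have e1 : (((k + 1 : ℕ) : ℝ) + 2) / (2 * (((k + 1 : ℕ) : ℝ) + 1))
        = ((k : ℝ) + 2) / (2 * ((k : ℝ) + 1)) * (1 - 1 / ((k : ℝ) + 2) ^ 2) := by
      push_cast; field_simp; ring
    calc (((k + 1 : ℕ) : ℝ) + 2) / (2 * (((k + 1 : ℕ) : ℝ) + 1)) *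
          (mm d c0 (k + 1) * (d * ‖P d (k + 1) c0‖ ^ (d - 1)))
        = (((k : ℝ) + 2) / (2 * ((k : ℝ) + 1)) * mm d c0 (k + 1)) *
          (d * (‖P d (k + 1) c0‖ ^ (d - 1) * (1 - 1 / ((k : ℝ) + 2) ^ 2))) := by
          rw [e1]; ring
      _ ≤ mm d c (k + 1) * (d * ‖P d (k + 1) c‖ ^ (d - 1)) := by
          refine mul_le_mul ih (mul_le_mul_of_nonneg_left h4 hd0.le)
            (mul_nonneg hd0.le hlow) ?_
          rw [← norm_MM]; exact norm_nonneg _

theorem growth {d : ℕ} (hd : 2 ≤ d) (c : ℂ) (b : ℝ) (l J : ℕ)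
    (h : ∀ n : ℕ, n ≤ l → Real.exp (-b) ≤ ‖P d (n + 1) c‖) :
    ∀ t : ℕ, J + t ≤ l →
      mm d c (J + 1) * Real.exp (-(((d - 1 : ℕ) : ℝ) * b * t)) ≤ mm d c (J + t + 1)
  | 0, _ => by simp
  | t + 1, ht => by
    have ih := growth hd c b l J h t (by omega)
    have h1 := h (J + t) (by omega)
    have e : J + (t + 1) + 1 = J + t + 2 := by ring
    rw [e, mm_succ]
    have hd1 : (1 : ℝ) ≤ d := by exact_mod_cast (by omega : 1 ≤ d)
    have h2 : Real.exp (-(((d - 1 : ℕ) : ℝ) * b)) ≤ d * ‖P d (J + t + 1) c‖ ^ (d - 1) := by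
      calc Real.exp (-(((d - 1 : ℕ) : ℝ) * b)) = Real.exp (-b) ^ (d - 1) := by
            rw [← Real.exp_nat_mul]; congr 1; ring
        _ ≤ ‖P d (J + t + 1) c‖ ^ (d - 1) := pow_le_pow_left₀ (Real.exp_nonneg _) h1 _
        _ ≤ d * ‖P d (J + t + 1) c‖ ^ (d - 1) :=
            le_mul_of_one_le_left (by positivity) hd1
    have e2 : Real.exp (-(((d - 1 : ℕ) : ℝ) * b * ((t + 1 : ℕ) : ℝ)))
        = Real.exp (-(((d - 1 : ℕ) : ℝ) * b * t)) * Real.exp (-(((d - 1 : ℕ) : ℝ) * b)) := by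
      rw [← Real.exp_add]; congr 1; push_cast; ring
    rw [e2, ← mul_assoc]
    refine mul_le_mul ih h2 (Real.exp_nonneg _) ?_
    rw [← norm_MM]; exact norm_nonneg _

theorem sum_Icc (g : ℕ → ℝ) : ∀ j : ℕ, ∑ i ∈ Finset.Icc 1 j, g i = ∑ k ∈ Finset.range j, g (k + 1)
  | 0 => by simp
  | j + 1 => by
    rw [Finset.sum_Icc_succ_top (by omega), sum_Icc g j, Finset.sum_range_succ]

theorem t (hD : St_Dist) : St_RLim := by
  intro d c0 A c R hd hA hp hs hc hr hR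
  have hd0 : (0 : ℝ) < d := by exact_mod_cast (by omega : 0 < d)
  have hd2 : (2 : ℝ) ≤ d := by exact_mod_cast hd
  have hlog2 : 0 < Real.log 2 := Real.log_pos (by norm_num)
  have hlogd : Real.log 2 ≤ Real.log d := Real.log_le_log (by norm_num) hd2
  have hP0 : ∀ j, P d (j + 1) c0 ≠ 0 := fun j =>
    norm_pos_iff.1 ((Real.exp_pos _).trans_le (hp j))
  have hPc : ∀ l j, j ≤ l → P d (j + 1) (c l) ≠ 0 := fun l j h =>
    norm_pos_iff.1 ((Real.exp_pos _).trans_le (hr l j h))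
  set D1 : ℝ := ((d - 1 : ℕ) : ℝ) with hD1
  have hD10 : 0 ≤ D1 := Nat.cast_nonneg _
  obtain ⟨K0, hK0, hK⟩ := exists_low (D1 * A)
  have hmlow : ∀ k : ℕ, Real.exp (-K0) * Real.exp (((k : ℝ) + 1) / 4) ≤ mm d c0 (k + 1) := by
    intro k
    rw [mm_eq hd c0 k (fun j _ => hP0 j), ← Real.exp_add]
    refine Real.exp_le_exp.2 ?_
    have h1 := hK k
    have h2 := (abs_le.1 (hs k)).1
    have h3 : (k : ℝ) * Real.log 2 ≤ k * Real.log d :=
      mul_le_mul_of_nonneg_left hlogd (Nat.cast_nonneg k)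
    have h4 : D1 * (-(A * bb k)) ≤ D1 * ∑ n ∈ Finset.range k, Real.log ‖P d (n + 1) c0‖ :=
      mul_le_mul_of_nonneg_left h2 hD10
    nlinarith
  have hmup : ∀ k : ℕ, mm d c0 (k + 1) ≤ Real.exp (k * Real.log d + D1 * (A * bb k)) := by
    intro k
    rw [mm_eq hd c0 k (fun j _ => hP0 j)]
    refine Real.exp_le_exp.2 ?_
    have h2 := (abs_le.1 (hs k)).2
    have h4 := mul_le_mul_of_nonneg_left h2 hD10
    linarith
  have hmpos : ∀ k : ℕ, 0 < mm d c0 (k + 1) := fun k => mm_pos hd c0 k (fun j _ => hP0 j)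
  have hinv : ∀ k : ℕ, 1 / mm d c0 (k + 1) ≤
      Real.exp K0 * Real.exp (-(((k : ℝ) + 1) * (1 / 4))) := by
    intro k
    rw [div_le_iff₀ (hmpos k)]
    have h1 := mul_le_mul_of_nonneg_left (hmlow k)
      (by positivity : 0 ≤ Real.exp K0 * Real.exp (-(((k : ℝ) + 1) * (1 / 4))))
    refine le_trans (le_of_eq ?_) h1
    rw [← Real.exp_add, ← Real.exp_add, ← Real.exp_add, eq_comm, Real.exp_eq_one_iff]
    ring
  have hsum4 := (summ (1 / 4) (by norm_num)).mul_left (Real.exp K0)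
  obtain ⟨S, hS0, hS⟩ : ∃ S : ℝ, 0 < S ∧ ∀ j, ∑ i ∈ Finset.Icc 1 j, 1 / mm d c0 i ≤ S := by
    refine ⟨∑' k : ℕ, Real.exp K0 * Real.exp (-(((k : ℝ) + 1) * (1 / 4))), ?_, fun j => ?_⟩
    · exact hsum4.tsum_pos (fun _ => by positivity) 0 (by positivity)
    · rw [sum_Icc]
      exact (Finset.sum_le_sum fun k _ => hinv k).trans
        (hsum4.sum_le_tsum _ (fun _ _ => by positivity))
  have hcle : ∀ l : ℕ, ‖c l - c0‖ ≤ Real.exp (A * aa l - l * Real.log d) := by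
    intro l
    have h1 := hc l
    have h2 : (d : ℝ) ^ l = Real.exp (l * Real.log d) := by
      rw [mul_comm, Real.exp_mul, Real.exp_log hd0, Real.rpow_natCast]
    rw [h2] at h1
    rw [Real.exp_sub, le_div_iff₀ (Real.exp_pos _)]
    exact h1
  -- the parameters converge
  have hcl : Tendsto c atTop (𝓝 c0) := by
    obtain ⟨K2, -, hK2⟩ := exists_low (2 * A)
    have hz := (summ (1 / 4) (by norm_num)).tendsto_atTop_zero.const_mul (Real.exp K2)
    rw [mul_zero] at hz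
    rw [tendsto_iff_norm_sub_tendsto_zero]
    refine squeeze_zero (fun _ => norm_nonneg _) (fun l => ?_) hz
    refine (hcle l).trans ?_
    rw [← Real.exp_add]
    refine Real.exp_le_exp.2 ?_
    have h1 := hK2 l
    have h2 := mul_le_mul_of_nonneg_left (aa_le l) hA
    have h3 : (l : ℝ) * Real.log 2 ≤ l * Real.log d :=
      mul_le_mul_of_nonneg_left hlogd (Nat.cast_nonneg l)
    linarith
  -- the domination
  have key : ∀ᶠ l : ℕ in atTop, ∀ k : ℕ, k ≤ l →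
      ‖1 / MM d (c l) (k + 1)‖ ≤ 2 * Real.exp K0 * Real.exp (-(((k : ℝ) + 1) * (1 / 8))) := by
    filter_upwards [ev1 (|Real.log (3 * S)| + (D1 + 2) * A + (A + 2)),
      ev2 (D1 * A) (mul_nonneg hD10 hA), ev3] with l h1 h2 h3
    set x : ℝ := (l : ℝ) + 2 with hx
    have hl0 : (0 : ℝ) ≤ l := Nat.cast_nonneg l
    have hlogx : 0 ≤ Real.log x := Real.log_nonneg (by linarith)
    have hbb := bb_nonneg l
    have habs : 0 ≤ |Real.log (3 * S)| := abs_nonneg _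
    obtain ⟨J, hJ⟩ : ∃ J, l = J + q l := ⟨l - q l, by omega⟩
    have hJr : (l : ℝ) = J + q l := by exact_mod_cast hJ
    have hq : x ^ (3 / 4 : ℝ) ≤ q l := Nat.le_ceil _
    have hcond : ∀ j ∈ Finset.Icc 1 J,
        3 * mm d c0 j * (∑ i ∈ Finset.Icc 1 j, 1 / mm d c0 i) * ‖c l - c0‖ ≤
          ‖P d j c0‖ / (d * ((j : ℝ) + 1) ^ 2) := by
      intro j hj
      rw [Finset.mem_Icc] at hj
      obtain ⟨k, rfl⟩ : ∃ k, j = k + 1 := ⟨j - 1, by omega⟩
      have hkJ : (k : ℝ) + 1 ≤ J := by exact_mod_cast hj.2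
      have hk0 : (0 : ℝ) ≤ k := Nat.cast_nonneg k
      have hql0 : (0 : ℝ) ≤ q l := Nat.cast_nonneg _
      have hkl : k ≤ l := by omega
      have a1 : 3 * mm d c0 (k + 1) * (∑ i ∈ Finset.Icc 1 (k + 1), 1 / mm d c0 i) * ‖c l - c0‖
          ≤ 3 * Real.exp (k * Real.log d + D1 * (A * bb k)) * S *
            Real.exp (A * aa l - l * Real.log d) := by
        have b1 := hmup k
        have b2 := hS (k + 1)
        have b3 := hcle l
        have b4 := (hmpos k).le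
        have b5 : 0 ≤ ∑ i ∈ Finset.Icc 1 (k + 1), 1 / mm d c0 i := by
          rw [sum_Icc]; exact Finset.sum_nonneg fun i _ => by have := hmpos i; positivity
        gcongr
      have a2 : 3 * Real.exp (k * Real.log d + D1 * (A * bb k)) * S *
            Real.exp (A * aa l - l * Real.log d)
          = Real.exp (Real.log (3 * S) + (k * Real.log d + D1 * (A * bb k)) +
              (A * aa l - l * Real.log d)) := by
        rw [Real.exp_add (Real.log (3 * S) + (k * Real.log d + D1 * (A * bb k))),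
          Real.exp_add (Real.log (3 * S)), Real.exp_log (by positivity)]; ring
      have a3 : Real.exp (-(A * Real.log x) - (Real.log d + 2 * Real.log x)) ≤
          ‖P d (k + 1) c0‖ / (d * (((k + 1 : ℕ) : ℝ) + 1) ^ 2) := by
        rw [Real.exp_sub, Real.exp_add, Real.exp_log hd0]
        have c1 : Real.exp (2 * Real.log x) = x ^ 2 := by
          rw [two_mul, Real.exp_add, Real.exp_log (by linarith)]; ring
        rw [c1]
        have c2 : ((k + 1 : ℕ) : ℝ) + 1 ≤ x := by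
          push_cast
          have : (k : ℝ) ≤ l := by exact_mod_cast hkl
          linarith
        have c3 : Real.exp (-(A * Real.log x)) ≤ ‖P d (k + 1) c0‖ := by
          refine le_trans (Real.exp_le_exp.2 ?_) (hp k)
          have : Real.log ((k : ℝ) + 2) ≤ Real.log x := by
            refine Real.log_le_log (by linarith) ?_
            push_cast at c2; linarith
          have := mul_le_mul_of_nonneg_left this hA
          linarith
        have c4 : (0 : ℝ) < ((k + 1 : ℕ) : ℝ) + 1 := by positivity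
        gcongr
      refine (a1.trans (le_of_eq a2)).trans (le_trans (Real.exp_le_exp.2 ?_) a3)
      have b1 : bb k ≤ bb l := bb_mono hkl
      have b2 := aa_le l
      have b3 := le_abs_self (Real.log (3 * S))
      have b4 : D1 * (A * bb k) ≤ D1 * (A * bb l) :=
        mul_le_mul_of_nonneg_left (mul_le_mul_of_nonneg_left b1 hA) hD10
      have b5 : A * aa l ≤ A * (2 * bb l) := mul_le_mul_of_nonneg_left b2 hA
      have b6 : ((k : ℝ) + 1 - l) * Real.log d ≤ -(q l : ℝ) * Real.log d :=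
        mul_le_mul_of_nonneg_right (by linarith) (hlog2.le.trans hlogd)
      have b7 : (q l : ℝ) * Real.log 2 ≤ (q l : ℝ) * Real.log d :=
        mul_le_mul_of_nonneg_left hlogd hql0
      have b8 : Real.log 2 * x ^ (3 / 4 : ℝ) ≤ Real.log 2 * q l :=
        mul_le_mul_of_nonneg_left hq hlog2.le
      have b9 : 0 ≤ |Real.log (3 * S)| * bb l := mul_nonneg habs hbb
      have b10 : 0 ≤ (A + 2) * bb l := mul_nonneg (by linarith) hbb
      have b11 : 0 ≤ (|Real.log (3 * S)| + (D1 + 2) * A) * Real.log x :=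
        mul_nonneg (by positivity) hlogx
      have b12 : 0 ≤ (D1 + 2) * A + (A + 2) := by positivity
      nlinarith
    have hdist := hD d c0 (c l) J hd (fun j hj => by
      rw [Finset.mem_Icc] at hj
      obtain ⟨k, rfl⟩ : ∃ k, j = k + 1 := ⟨j - 1, by omega⟩
      exact hmpos k) hcond
    have hlow := prodlow hd c0 (c l) J (fun j hj => by
      have e1 := (hdist j hj).trans (hcond j hj)
      have e2 : ‖P d j c0‖ - ‖P d j (c l)‖ ≤ ‖P d j (c l) - P d j c0‖ := by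
        rw [norm_sub_rev]; exact norm_sub_norm_le _ _
      have e3 : ‖P d j c0‖ * (1 - 1 / (d * ((j : ℝ) + 1) ^ 2))
          = ‖P d j c0‖ - ‖P d j c0‖ / (d * ((j : ℝ) + 1) ^ 2) := by ring
      rw [e3]; linarith)
    have hlow2 : ∀ k : ℕ, k ≤ J →
        1 / 2 * (Real.exp (-K0) * Real.exp (((k : ℝ) + 1) / 4)) ≤ mm d (c l) (k + 1) := by
      intro k hk
      refine le_trans ?_ (hlow k hk)
      have e1 : (1 : ℝ) / 2 ≤ ((k : ℝ) + 2) / (2 * ((k : ℝ) + 1)) := by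
        have : (0 : ℝ) ≤ k := Nat.cast_nonneg k
        rw [div_le_div_iff₀ (by norm_num) (by positivity)]
        linarith
      exact mul_le_mul e1 (hmlow k) (by positivity) (by positivity)
    intro k hk
    have hlow3 : 1 / 2 * (Real.exp (-K0) * Real.exp (((k : ℝ) + 1) / 8)) ≤ mm d (c l) (k + 1) := by
      have hk0 : (0 : ℝ) ≤ k := Nat.cast_nonneg k
      by_cases hkJ : k ≤ J
      · refine le_trans ?_ (hlow2 k hkJ)
        have : ((k : ℝ) + 1) / 8 ≤ ((k : ℝ) + 1) / 4 := by linarith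
        gcongr
      · obtain ⟨t, ht⟩ : ∃ t, k = J + t := ⟨k - J, by omega⟩
        have htq : t ≤ q l := by omega
        have htq' : (t : ℝ) ≤ q l := by exact_mod_cast htq
        have g1 := growth hd (c l) (A * Real.log x) l J (fun n hn => hr l n hn) t (by omega)
        rw [ht]
        refine le_trans ?_ g1
        have g2 := hlow2 J le_rfl
        refine le_trans ?_ (mul_le_mul_of_nonneg_right g2 (Real.exp_nonneg _))
        have e1 : 1 / 2 * (Real.exp (-K0) * Real.exp (((J : ℝ) + 1) / 4)) *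
            Real.exp (-(D1 * (A * Real.log x) * t))
            = 1 / 2 * (Real.exp (-K0) *
              Real.exp (((J : ℝ) + 1) / 4 + -(D1 * (A * Real.log x) * t))) := by
          rw [Real.exp_add]; ring
        rw [e1]
        have e2 : (((J + t : ℕ) : ℝ) + 1) / 8 ≤
            ((J : ℝ) + 1) / 4 + -(D1 * (A * Real.log x) * t) := by
          have f1 : D1 * (A * Real.log x) * t ≤ D1 * A * ((q l : ℝ) * Real.log x) := by
            have : D1 * (A * Real.log x) * t ≤ D1 * (A * Real.log x) * q l :=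
              mul_le_mul_of_nonneg_left htq' (by positivity)
            linarith
          push_cast
          linarith
        gcongr
    have hpos : 0 < mm d (c l) (k + 1) :=
      lt_of_lt_of_le (by positivity) hlow3
    rw [norm_div, norm_one, norm_MM, div_le_iff₀ hpos]
    have e1 := mul_le_mul_of_nonneg_left hlow3
      (by positivity : 0 ≤ 2 * Real.exp K0 * Real.exp (-(((k : ℝ) + 1) * (1 / 8))))
    refine le_trans (le_of_eq ?_) e1
    have e2 : 2 * Real.exp K0 * Real.exp (-(((k : ℝ) + 1) * (1 / 8))) *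
        (1 / 2 * (Real.exp (-K0) * Real.exp (((k : ℝ) + 1) / 8)))
        = Real.exp (K0 + -(((k : ℝ) + 1) * (1 / 8)) + (-K0 + ((k : ℝ) + 1) / 8)) := by
      rw [Real.exp_add, Real.exp_add, Real.exp_add]; ring
    rw [e2, eq_comm, Real.exp_eq_one_iff]
    ring
  -- dominated convergence
  have hMcont : ∀ k : ℕ, Continuous (fun z : ℂ => MM d z k) := by
    intro k
    unfold MM
    exact continuous_finsetProd _ fun i _ => continuous_const.mul
      (((diffP d i).continuous).pow _)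
  have hM0 : ∀ k : ℕ, MM d c0 (k + 1) ≠ 0 := fun k => MM_ne hd c0 k (fun j _ => hP0 j)
  have hdc : Tendsto (fun l : ℕ => ∑' k : ℕ, (if k < l + 1 then 1 / MM d (c l) (k + 1) else 0))
      atTop (𝓝 (∑' k : ℕ, 1 / MM d c0 (k + 1))) := by
    refine tendsto_tsum_of_dominated_convergence
      (bound := fun k : ℕ => 2 * Real.exp K0 * Real.exp (-(((k : ℝ) + 1) * (1 / 8))))
      ((summ (1 / 8) (by norm_num)).mul_left _) (fun k => ?_) ?_
    · have h1 : Tendsto (fun l : ℕ => 1 / MM d (c l) (k + 1)) atTop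
          (𝓝 (1 / MM d c0 (k + 1))) :=
        Tendsto.div tendsto_const_nhds (((hMcont (k + 1)).tendsto c0).comp hcl) (hM0 k)
      refine h1.congr' ?_
      filter_upwards [eventually_ge_atTop k] with l hl
      rw [if_pos (by omega)]
    · filter_upwards [key] with l hl k
      split_ifs with hk
      · exact hl k (by omega)
      · rw [norm_zero]; positivity
  have hc0 : Tendsto (fun n : ℕ => ∑ k ∈ Finset.range (n + 1), 1 / MM d c0 (k + 1)) atTop
      (𝓝 (∑' k : ℕ, 1 / MM d c0 (k + 1))) := by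
    have hsm : Summable (fun k : ℕ => 1 / MM d c0 (k + 1)) := by
      refine Summable.of_norm_bounded hsum4 fun k => ?_
      rw [norm_div, norm_one, norm_MM]
      exact hinv k
    exact hsm.hasSum.tendsto_sum_nat.comp (tendsto_add_atTop_nat 1)
  have hRe : R = ∑' k : ℕ, 1 / MM d c0 (k + 1) := by
    refine tendsto_nhds_unique hR (hc0.congr fun n => ?_)
    rw [ratio hd c0 n (fun j _ => hP0 j)]
  rw [hRe]
  refine hdc.congr fun l => ?_
  rw [ratio hd (c l) l (fun j hj => hPc l j (by omega)),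
    tsum_eq_sum (s := Finset.range (l + 1)) (fun k hk => if_neg (by
      rw [Finset.mem_range] at hk; exact hk))]
  exact Finset.sum_congr rfl fun k hk => if_pos (Finset.mem_range.1 hk)

end Pool.Agent.Y266.TY.RLim
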